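import Pool.Agent.K6.H99.EX.Stm
import Pool.Agent.TH133.Murre
import Pool.Agent.TH133.Dual

/-!
# The second half of Murre's conjecture (B) from the conjecture of Lefschetz type and nilpotence
(helper66)
-/

set_option autoImplicit false

open CategoryTheory AlgebraicGeometry

noncomputable section

namespace Pool.Agent.K6.H99.EX

open Pool.Agent.H914 Pool.Agent.H914.VarClass Pool.Agent.H914.VarClass.Obj Pool.Agent.W492.BB
  Pool.Agent.W550.Corr Pool.Agent.TH133

theorem t_B1 : S_B1 := by
  intro k _ 𝒱 C _ K _ H _ X hnil h hh hN π hπ i j x hx hj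
  by_cases hi : X.dim < i
  · have hx0 : x = 0 := IsChowProj.gr_top X i x hx (by exact_mod_cast hi)
    rw [hx0, TheoryData.act_map_zero]
  obtain ⟨N, hNd, hNa⟩ := hN j (by omega)
  have hdj : C.Deg ((X.dim - j : ℕ) : ℤ) (h ^ (X.dim - j)) := by
    have hpow : ∀ n : ℕ, h ^ n ∈ C.gr X (n : ℤ) := by
      intro n
      induction n with
      | zero => simpa using C.one_mem X
      | succ n ih =>
        rw [pow_succ]
        have := C.mul_mem ih hh
        push_cast
        exact this
    exact hpow _
  have r1 : Realised H X X 0 (C.act (π j)) (H.act (H.cl (π j))) :=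
    Realised.of (by rw [add_zero]; exact hπ.deg j)
  have r2 := Realised.mul (H := H) hdj
  have r3 : Realised H X X ((j : ℤ) - X.dim) (C.act N) (H.act (H.cl N)) :=
    Realised.of (by
      have e1 : (X.dim : ℤ) + ((j : ℤ) - X.dim) = j := by ring
      rw [e1]; exact hNd)
  obtain ⟨L, hL, hL1', hL2'⟩ := (r1.comp r2).comp r3
  have hL1 : ∀ a : C.A X, C.act L a = C.act N (h ^ (X.dim - j) * C.act (π j) a) := hL1'
  have hL2 : ∀ a : H.A X, H.act (H.cl L) a = H.act (H.cl N) (H.cl (h ^ (X.dim - j)) * H.act (H.cl (π j)) a) := hL2'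
  have e2 : (X.dim : ℤ) + (0 + ((X.dim - j : ℕ) : ℤ) + ((j : ℤ) - X.dim)) = X.dim := by
    omega
  rw [e2] at hL
  have hE0 : (π j - L : C.A (X.prod X)) ∈ C.gr (X.prod X) X.dim := Submodule.sub_mem _ (hπ.deg j) hL
  obtain ⟨E, hE⟩ : ∃ E : Cor C X, E = (show Cor C X from (π j - L : C.A (X.prod X))) := ⟨_, rfl⟩
  have hEH : ∀ a : H.A X, actH C X H E a = H.act (H.cl (π j)) a - H.act (H.cl L) a := by
    intro a
    rw [hE]
    change H.act (X := X) (Y := X) (H.cl (X := X.prod X) (π j - L)) a = _
    rw [map_sub, H.act_sub]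
  have hEC : ∀ a : C.A X, actC C X E a = C.act (π j) a - C.act L a := by
    intro a
    rw [hE]
    change C.act (X := X) (Y := X) (π j - L) a = _
    rw [C.act_sub]
  have hcl : H.cl (X := X.prod X) E = 0 := by
    apply hom_zero_of_act H
    intro a
    have hz : actH C X H E = 0 := by
      apply ext_gr H
      intro m a ha
      rw [hEH, LinearMap.zero_apply, hL2, hπ.actH_eq j m ha]
      split_ifs with hm
      · subst hm
        rw [hNa a ha, sub_self]
      · rw [mul_zero, TheoryData.act_map_zero, sub_zero]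
    exact LinearMap.congr_fun hz a
  obtain ⟨n, hn⟩ := hnil E (by rw [hE]; exact hE0) hcl
  set y : C.A X := C.act (π j) x with hy
  have hyi : y ∈ C.gr X i := act_mem0 C (hπ.deg j) hx
  have hy0 : h ^ (X.dim - j) * y = 0 := by
    refine IsChowProj.gr_top X _ _ (C.mul_mem hdj hyi) ?_
    omega
  have hyy : C.act (π j) y = y := by
    rw [hy, ← C.act_comp, hπ.idem]
  have hEy : actC C X E y = y := by
    rw [hEC, hL1, hyy, hy0]
    rw [TheoryData.act_map_zero, sub_zero]
  have hpow : ∀ n : ℕ, ((actC C X E) ^ n) y = y := by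
    intro n
    induction n with
    | zero => simp
    | succ n ih => rw [pow_succ, Module.End.mul_apply, hEy, ih]
  have h1 := hpow n
  rw [← map_pow, hn, map_zero, LinearMap.zero_apply] at h1
  exact h1.symm

end Pool.Agent.K6.H99.EX
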