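import Pool.Agent.K6.H99.EX.Stm
import Pool.Agent.TH133.Murre
import Pool.Agent.TH133.Dual

/-!
# Chow-Kunneth decompositions by lifting of idempotents (helper66)
-/

set_option autoImplicit false

open CategoryTheory AlgebraicGeometry

noncomputable section

namespace Pool.Agent.K6.H99.EX

open Pool.Agent.H914 Pool.Agent.H914.VarClass Pool.Agent.H914.VarClass.Obj Pool.Agent.W492.BB
  Pool.Agent.W550.Corr Pool.Agent.TH133

theorem t_CKL : S_CKL := by
  intro k _ 𝒱 C _ K _ H _ X hp hnil
  choose p hp0 hpa using hp
  classical
  let f : cor0 C X →+* Module.End K (H.A X) := (actH C X H).comp (cor0 C X).val.toRingHom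
  have hf : ∀ a : cor0 C X, f a = actH C X H (a : Cor C X) := fun a => rfl
  have hker : ∀ a ∈ RingHom.ker f, IsNilpotent a := by
    intro a ha
    rw [RingHom.mem_ker, hf] at ha
    have hcl : H.cl (X := X.prod X) (a : Cor C X) = 0 := by
      apply hom_zero_of_act H
      intro b
      exact LinearMap.congr_fun ha b
    obtain ⟨n, hn⟩ := hnil (a : Cor C X) a.2 hcl
    exact ⟨n, Subtype.ext (by rw [SubmonoidClass.coe_pow, hn]; rfl)⟩
  let q : Fin (2 * X.dim + 1) → cor0 C X := fun i => ⟨p i, hp0 i⟩
  let e : Fin (2 * X.dim + 1) → Module.End K (H.A X) := fun i => f (q i)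
  have he : ∀ (i : Fin (2 * X.dim + 1)) (m : ℤ) (a : H.A X), a ∈ H.gr X m →
      e i a = if m = (i : ℕ) then a else 0 := by
    intro i m a ha
    exact hpa i m a ha
  have hco : CompleteOrthogonalIdempotents e :=
    { idem := fun i => by
        apply ext_gr H
        intro m a ha
        rw [Module.End.mul_apply, he i m a ha]
        split_ifs with h1
        · rw [he i m a ha, if_pos h1]
        · rw [map_zero]
      ortho := fun i l hil => by
        apply ext_gr H
        intro m a ha
        rw [Module.End.mul_apply, he l m a ha]
        split_ifs with h1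
        · rw [he i m a ha, if_neg, LinearMap.zero_apply]
          intro h2
          apply hil
          apply Fin.ext
          omega
        · rw [map_zero, LinearMap.zero_apply]
      complete := by
        apply ext_gr H
        intro m a ha
        rw [LinearMap.sum_apply, Module.End.one_apply]
        rw [Finset.sum_congr rfl fun i _ => he i m a ha]
        by_cases ha0 : a = 0
        · subst ha0
          simp
        have hm0 := nonneg_of_mem H ha ha0
        have hm1 : m ≤ 2 * X.dim := by
          by_contra hcon
          rw [gr_top H (by omega)] at ha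
          exact ha0 ((Submodule.mem_bot _).1 ha)
        have hm2 : m.toNat < 2 * X.dim + 1 := by omega
        rw [Finset.sum_eq_single (⟨m.toNat, hm2⟩ : Fin (2 * X.dim + 1))]
        · rw [if_pos]
          simp only
          omega
        · intro b _ hb
          rw [if_neg]
          intro h1
          apply hb
          apply Fin.ext
          simp only
          omega
        · intro h1
          exact absurd (Finset.mem_univ _) h1 }
  obtain ⟨e2, he2, hfe⟩ := CompleteOrthogonalIdempotents.lift_of_isNilpotent_ker f hker hco
    (fun i => ⟨q i, rfl⟩)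
  refine ⟨fun i => if hi : i < 2 * X.dim + 1 then ((e2 ⟨i, hi⟩ : cor0 C X) : Cor C X) else (0 : Cor C X), ?_⟩
  refine isCK_of (H := H) (C := C) (X := X)
    (P := fun i => if hi : i < 2 * X.dim + 1 then ((e2 ⟨i, hi⟩ : cor0 C X) : Cor C X) else (0 : Cor C X))
    ?_ ?_ ?_ ?_ ?_
  · intro i
    split_ifs with hi
    · exact (e2 ⟨i, hi⟩).2
    · exact Subalgebra.zero_mem _
  · intro i hi
    rw [dif_neg (by omega)]
  · intro i l
    by_cases hi : i < 2 * X.dim + 1
    · by_cases hl : l < 2 * X.dim + 1
      · rw [dif_pos hi, dif_pos hl]
        by_cases hil : i = l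
        · subst hil
          rw [if_pos rfl]
          have := he2.idem ⟨i, hi⟩
          exact congrArg Subtype.val this
        · rw [if_neg hil]
          have := he2.ortho (i := ⟨i, hi⟩) (j := ⟨l, hl⟩) (fun h => hil (congrArg Fin.val h))
          exact congrArg Subtype.val this
      · rw [dif_neg hl, mul_zero, if_neg (by omega)]
    · rw [dif_neg hi, zero_mul]
      split_ifs <;> rfl
  · have h1 := he2.complete
    have h2 : ∑ i : Fin (2 * X.dim + 1), ((e2 i : cor0 C X) : Cor C X) = 1 := by
      have := congrArg (Subtype.val) h1
      rw [AddSubmonoidClass.coe_finsetSum] at this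
      exact this
    rw [← h2, Finset.sum_range]
    apply Finset.sum_congr rfl
    intro i _
    rw [dif_pos i.2]
  · intro i m a ha
    split_ifs with hi h1 h1
    · have := congrFun hfe ⟨i, hi⟩
      have h3 := LinearMap.congr_fun this a
      rw [he ⟨i, hi⟩ m a ha, if_pos h1] at h3
      exact h3
    · have := congrFun hfe ⟨i, hi⟩
      have h3 := LinearMap.congr_fun this a
      rw [he ⟨i, hi⟩ m a ha, if_neg h1] at h3
      exact h3
    · rw [map_zero, LinearMap.zero_apply]
      rw [gr_top H (by omega)] at ha
      exact ((Submodule.mem_bot _).1 ha).symm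
    · rw [map_zero, LinearMap.zero_apply]

end Pool.Agent.K6.H99.EX
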