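import Pool.Agent.K6.H99.FS.Const

/-!
# Bloch-Beilinson filtrations over a perfect field `k` and over an extension `K` of `k`

`T₀` is the class of all (geometrically irreducible) smooth projective varieties over a perfect
field `k`, for example a prime field, and `T` is the class of all smooth projective varieties over an
extension field `K` of `k`, with their Chow groups with rational coefficients and with their `l`-adic
cohomology. A variety `X` over `K` extends to a smooth projective family `f : 𝒳 ⟶ U`, where `U` is a
smooth connected variety over `k` whose function field is a subfield of `K`. Let `N'` be a smooth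
compactification of `𝒳` (or an alteration of a compactification). If `k` is algebraically closed then
we take `N = N'`. In general `N'` need not be geometrically irreducible, and we take for `N` the blow-up
of a projective space of large dimension, containing `N'`, along `N'`, so that the motive of `N'`,
twisted once, is a direct summand of the motive of `N`. Cycles and cohomology classes on `N` can be
restricted to `N'` and then to `X`.
-/

set_option autoImplicit false

open CategoryTheory AlgebraicGeometry

noncomputable section

namespace Pool.Agent.K6.H99.EX

open Pool.Agent.W492.BB Pool.Agent.K6.H99.FS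

section one

variable {T : Theory} {X Y : T.Var}

/-- The intersection number of `z` and `w` (a rational number, up to the normalisation of the
orientation of the cohomology theory) vanishes. -/
def Orthogonal (z w : T.CH X) : Prop := orientation T.H (T.cls (z * w)) = 0

/-- The class `z` is numerically equivalent to zero. -/
def NumZero (z : T.CH X) : Prop := ∀ w : T.CH X, Orthogonal z w

/-- Homological and numerical equivalence coincide. -/
def HomEqNum (T : Theory) : Prop := ∀ (X : T.Var) (z : T.CH X), NumZero z → T.HomZero z

/-- The steps `F^n` of the filtration with `n > c` are zero (no condition if `c = ⊤`). -/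
def HasLength (F : Filtration T.C) (c : ℕ∞) : Prop :=
  ∀ (X : T.Var) (i n : ℕ) (x : T.CH X), c < n → F.Mem i n x → T.IsZero x

/-- There is a Bloch-Beilinson filtration, also in the strong form `IsStrong`, with `F^n = 0` for
`n > c`, and homological and numerical equivalence coincide. -/
def HasBBandD (T : Theory) (c : ℕ∞) : Prop :=
  (∃ F : Filtration T.C, IsBB T.H F ∧ T.IsStrong F ∧ HasLength F c) ∧ HomEqNum T

/-- The groups of cycles modulo numerical equivalence are finite-dimensional, so that each subspace
`W` is the orthogonal complement of its orthogonal complement: a class `y` which is orthogonal to all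
`w` which are orthogonal to `W` is numerically equivalent to an element of `W`. -/
def IsPerfect (T : Theory) : Prop :=
  ∀ (X : T.Var) (W : Submodule ℚ (T.CH X)) (y : T.CH X),
    (∀ w : T.CH X, (∀ z ∈ W, Orthogonal z w) → Orthogonal y w) → ∃ z ∈ W, NumZero (y - z)

/-- The theorem of Smirnov: if homological and numerical equivalence coincide then the Kunneth
conjecture and the standard conjecture of Lefschetz type hold. -/
def Smirnov (T : Theory) : Prop :=
  HomEqNum T → KunnethConjecture T.H ∧ ∀ X : T.Var, T.HasLefschetz X

end one

/-- The restriction of cycle classes from a variety `N` over `k` to a variety `X` over `K`. -/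
structure Restriction (T₀ T : Theory) (X : T.Var) where
  /-- the compactification, or the blow-up -/
  N : T₀.Var
  /-- the restriction lowers the codimension by `twist` (it is zero if `N` is a compactification and
  one if `N` is the blow-up) -/
  twist : ℕ
  /-- the restriction of cycle classes -/
  res : T₀.CH N →ₗ[ℚ] T.CH X

variable {T₀ T : Theory} {X : T.Var}

namespace Restriction

variable (m : Restriction T₀ T X)

/-- The correspondence `β`, of some degree, from `D` to `N` vanishes on the generic fibre: the
restrictions to `X` of the cycles `β_* x` vanish. An example is the inclusion of a component `D` of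
the complement of `𝒳` in `N`. -/
structure IsBoundary {D : T₀.Var} (β : T₀.CH (T₀.prod D m.N)) : Prop where
  homogeneous : ∃ e : ℤ, T₀.Codim e β
  res_zero : ∀ x : T₀.CH D, m.res (T₀.act β x) = 0

/-- The span of the images in the cohomology of `N` of the correspondences which vanish on the generic
fibre. -/
def boundary : Submodule T₀.K (T₀.Coh m.N) :=
  Submodule.span T₀.K {c | ∃ (D : T₀.Var) (β : T₀.CH (T₀.prod D m.N)) (d : T₀.Coh D),
    m.IsBoundary β ∧ c = T₀.cohAct β d}

/-- The restriction lowers the codimension by `twist`. -/
def Graded : Prop := ∀ (i : ℤ) (z : T₀.CH m.N), T₀.Codim (i + m.twist) z → T.Codim i (m.res z)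

/-- If the cohomology class of `x` is not zero then the specialisation of `x` at a closed point of `U`
gives a cycle class `ψ` on `N`, with nonzero cohomology class (Deligne: the theorem of the fixed part
and the semisimplicity of the monodromy), such that the intersection numbers of `x` and `res w` and
of `ψ` and `w` are the same up to a nonzero constant. -/
def Detects : Prop :=
  ∀ x : T.CH X, ¬ T.HomZero x → ∃ ψ : T₀.CH m.N, ¬ T₀.HomZero ψ ∧
    ∀ w : T₀.CH m.N, Orthogonal x (m.res w) → Orthogonal ψ w

end Restriction

/-- The data of a model of a variety `X` over `K`: a variety `N`, and the restriction of cycle classes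
and of cohomology classes. -/
structure Model (T₀ T : Theory) (X : T.Var) extends Restriction T₀ T X where
  /-- the Galois group of `k` -/
  G : Type
  /-- the restriction of cohomology classes, after the action of an element of the Galois group of
  `k` (if `U` is not geometrically irreducible, these are the restrictions to the geometric generic
  fibres over the different components of `U`) -/
  resH : G → T₀.Coh N →+ T.Coh X

namespace Model

variable (m : Model T₀ T X)

/-- If the correspondence `Γ` acts as zero on `H^l(X)` for all `l < n`, and if the class `a` in
`H^n(𝒳)` (Galois conjugates included) restricts to zero in `H^n(X)`, then the restriction of `P^n a`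
to `𝒳` is zero, and `P^n a` lies in the boundary. Proof: the restriction of `a` to `𝒳` lies in
the first step of the Leray filtration of `H^n(𝒳)`, and `Γ` acts as zero on its graded pieces, which
are subquotients of `H^(n-l)(U, R^l f_* ℚ)`, `l < n`; and by weights (Deligne) the kernel of the
restriction from `N'` to `𝒳` is spanned by the images of the cohomology of smooth projective
varieties which lie over the complement. -/
def Leray (Γ : T.CH (T.prod X X)) (P : T₀.CH (T₀.prod m.N m.N)) : Prop :=
  ∀ (n : ℕ) (a : T₀.Coh m.N), T₀.Degree n a → (∀ g : m.G, m.resH g a = 0) →
    (∀ l : ℤ, l < n - 2 * m.twist → T.Kill Γ l) → (T₀.cohAct P)^[n] a ∈ m.boundary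

/-- If the correspondence `Γ` acts as zero on `H^l(X)` for all `l ≥ n - r` then `P^(r + 1)` maps the
classes in `H^n(𝒳)` to the boundary. Here `r ≥ dim U`, and `U` is affine, so that the groups
`H^l(U, R^(n-l) f_* ℚ)` vanish for `l > r` (Artin). -/
def Artin (r : ℕ) (Γ : T.CH (T.prod X X)) (P : T₀.CH (T₀.prod m.N m.N)) : Prop :=
  ∀ (n : ℕ) (a : T₀.Coh m.N), T₀.Degree n a →
    (∀ l : ℤ, n - 2 * m.twist - r ≤ l → T.Kill Γ l) → (T₀.cohAct P)^[r + 1] a ∈ m.boundary

/-- The correspondence `P` on `N` extends the correspondence `Γ` on `X`; the transcendence degree of
`K` over `k` is `r`. -/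
structure Extends (r : ℕ∞) (Γ : T.CH (T.prod X X)) (P : T₀.CH (T₀.prod m.N m.N)) : Prop where
  codim : T₀.Codim (T₀.dim m.N) P
  chow : ∀ x : T₀.CH m.N, m.res (T₀.act P x) = T.act Γ (m.res x)
  coh : ∀ (g : m.G) (a : T₀.Coh m.N), m.resH g (T₀.cohAct P a) = T.cohAct Γ (m.resH g a)
  leray : m.Leray Γ P
  artin : ∀ s : ℕ, r = s → m.Artin s Γ P

end Model

/-- The known properties of a model; the transcendence degree of `K` over `k` is `r`. -/
structure IsModel (r : ℕ∞) (m : Model T₀ T X) : Prop where
  codim : m.Graded
  surj : ∀ (i : ℤ) (x : T.CH X), T.Codim i x →
    ∃ z : T₀.CH m.N, T₀.Codim (i + m.twist) z ∧ m.res z = x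
  degree : ∀ (i : ℤ) (g : m.G) (a : T₀.Coh m.N), T₀.Degree (i + 2 * m.twist) a →
    T.Degree i (m.resH g a)
  cycle : ∀ (g : m.G) (z : T₀.CH m.N), m.resH g (T₀.cls z) = T.cls (m.res z)
  /-- correspondences extend -/
  extend : ∀ Γ : T.CH (T.prod X X), T.Codim (T.dim X) Γ →
    ∃ P : T₀.CH (T₀.prod m.N m.N), m.Extends r Γ P
  detect : m.Detects

/-- The extension of the field of definition from `k` to `K` respects the intersection numbers: if `z` is
not orthogonal to a cycle class `w` over `K` then it is not orthogonal to the specialisation of `w`
at some closed point of `U`. -/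
def Specialises (α : TransferData T T₀) : Prop :=
  ∀ (W : T₀.Var) (z : T₀.CH W) (w : T.CH (α.obj W)), ¬ Orthogonal (α.t z) w →
    ∃ w' : T₀.CH W, ¬ Orthogonal z w'

end Pool.Agent.K6.H99.EX
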