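import Pool.Agent.K6.H99.EX.Stm

/-!
# Nilpotence of homologically trivial correspondences over `K`
-/

set_option autoImplicit false

open CategoryTheory AlgebraicGeometry

noncomputable section

namespace Pool.Agent.K6.H99.EX

open Pool.Agent.H914 Pool.Agent.H914.VarClass Pool.Agent.H914.VarClass.Obj Pool.Agent.W492.BB
  Pool.Agent.W550.Corr Pool.Agent.TH133 Pool.Agent.K6.H99.FS

namespace Nil

section model

variable {T₀ T : Theory} {Y : T.Var} {m : Model T₀ T Y} {r : ℕ∞}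

/-- The action on cohomology of a self-correspondence as a linear map. -/
def A (T₀ : Theory) (N : T₀.Var) (P : T₀.CH (T₀.prod N N)) : Module.End T₀.K (T₀.Coh N) :=
  T₀.H.actL (X := N) (Y := N) (T₀.H.cl P)

theorem A_apply (N : T₀.Var) (P : T₀.CH (T₀.prod N N)) (a : T₀.Coh N) :
    A T₀ N P a = T₀.cohAct P a := rfl

theorem boundary_stable [IsChowProj T₀.C] [IsWeilProj T₀.H] {Γ : T.CH (T.prod Y Y)}
    {P : T₀.CH (T₀.prod m.N m.N)} (hP : m.Extends r Γ P) :
    m.boundary ≤ m.boundary.comap (A T₀ m.N P) := by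
  conv_lhs => unfold Restriction.boundary
  rw [Submodule.span_le]
  rintro _ ⟨D, β, d, hβ, rfl⟩
  refine Submodule.subset_span ⟨D, T₀.C.comp β P, d, ⟨?_, ?_⟩, ?_⟩
  · obtain ⟨e, he⟩ := hβ.homogeneous
    have h1 : β ∈ T₀.C.gr (D.prod m.N) (D.dim + (e - D.dim)) := by
      rwa [add_sub_cancel]
    have h2 : P ∈ T₀.C.gr (m.N.prod m.N) (m.N.dim + 0) := by
      rw [add_zero]
      exact hP.codim
    exact ⟨_, comp_mem T₀.C h1 h2⟩
  · intro x
    have h1 : T₀.act (T₀.C.comp β P) x = T₀.act P (T₀.act β x) := T₀.C.act_comp β P x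
    rw [h1, hP.chow, hβ.res_zero]
    exact TheoryData.act_map_zero _ _
  · exact (actH_comp T₀.H β P d).symm

theorem boundary_pow [IsChowProj T₀.C] [IsWeilProj T₀.H] {Γ : T.CH (T.prod Y Y)}
    {P : T₀.CH (T₀.prod m.N m.N)} (hP : m.Extends r Γ P) (n : ℕ) {a : T₀.Coh m.N}
    (ha : a ∈ m.boundary) : (A T₀ m.N P ^ n) a ∈ m.boundary := by
  induction n with
  | zero => simpa using ha
  | succ n ih =>
    rw [pow_succ']
    exact boundary_stable hP ih

/-- All classes are mapped to the boundary by a fixed power. -/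
theorem all_boundary [IsChowProj T₀.C] [IsWeilProj T₀.H] {Γ : T.CH (T.prod Y Y)}
    (hcl : T.HomZero Γ) {P : T₀.CH (T₀.prod m.N m.N)} (hP : m.Extends r Γ P) (a : T₀.Coh m.N) :
    (A T₀ m.N P ^ (2 * T₀.dim m.N + 1)) a ∈ m.boundary := by
  have hkill : ∀ l : ℤ, T.Kill Γ l := by
    intro l b _
    have : T.H.cl Γ = 0 := hcl
    rw [this, TheoryData.act_zero]
  have key : ⨆ i, T₀.H.gr m.N i ≤
      m.boundary.comap (A T₀ m.N P ^ (2 * T₀.dim m.N + 1)) := by
    refine iSup_le fun i a ha => ?_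
    rw [Submodule.mem_comap]
    by_cases h0 : a = 0
    · rw [h0, map_zero]
      exact Submodule.zero_mem _
    have h1 := nonneg_of_mem T₀.H ha h0
    have h2 : i ≤ 2 * T₀.dim m.N := by
      by_contra h
      have := gr_top T₀.H (X := m.N) (i := i) (not_le.1 h)
      rw [this] at ha
      exact h0 ((Submodule.mem_bot _).1 ha)
    obtain ⟨n, rfl⟩ := Int.eq_ofNat_of_zero_le h1
    have hn : n ≤ 2 * T₀.dim m.N := by exact_mod_cast h2
    have hd : T₀.Degree n (T₀.cohAct P a) := by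
      have hPd : T₀.H.cl P ∈ T₀.H.gr (m.N.prod m.N) (2 * (m.N.dim : ℤ)) :=
        T₀.H.cl_mem hP.codim
      have h3 := T₀.H.push_mem (snd m.N m.N)
        (T₀.H.mul_mem hPd (T₀.H.pull_mem (fst m.N m.N) ha))
      have e1 : 2 * (m.N.dim : ℤ) + n + 2 * ((m.N.dim : ℤ) - ((m.N.prod m.N).dim : ℤ)) = n := by
        rw [dim_prod]; push_cast; ring
      rw [e1] at h3
      exact h3
    have h4 : ∀ g, m.resH g (T₀.cohAct P a) = 0 := by
      intro g
      rw [hP.coh]
      have : T.H.cl Γ = 0 := hcl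
      change T.H.act (T.H.cl Γ) _ = 0
      rw [this, TheoryData.act_zero]
    have h5 := hP.leray n (T₀.cohAct P a) hd h4 (fun l _ => hkill l)
    have h6 : (T₀.cohAct P)^[n] (T₀.cohAct P a) = (A T₀ m.N P ^ (n + 1)) a := by
      rw [pow_succ, Module.End.mul_apply, Module.End.pow_apply]
      rfl
    rw [h6] at h5
    have h7 := boundary_pow hP (2 * T₀.dim m.N - n) h5
    rw [← Module.End.mul_apply, ← pow_add] at h7
    have e : 2 * T₀.dim m.N - n + (n + 1) = 2 * T₀.dim m.N + 1 := by omega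
    rwa [e] at h7
  exact key (span_gr T₀.H m.N a)

end model

section power

variable {T₀ T : Theory} {Y : T.Var} {m : Model T₀ T Y}

theorem res_pow {L : Module.End ℚ (T.CH Y)} {L₀ : Module.End ℚ (T₀.CH m.N)}
    (h : ∀ z, L (m.res z) = m.res (L₀ z)) (n : ℕ) (z : T₀.CH m.N) :
    (L ^ n) (m.res z) = m.res ((L₀ ^ n) z) := by
  induction n with
  | zero => simp
  | succ n ih =>
    rw [pow_succ', Module.End.mul_apply, ih, h, pow_succ', Module.End.mul_apply]

theorem mem_pow {T₀ : Theory} {F : Filtration T₀.C} (hF : IsBB T₀.H F)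
    (hK : KunnethConjecture T₀.H) {N : T₀.Var} {E : T₀.CH (T₀.prod N N)}
    (hE : T₀.Codim (T₀.dim N) E) (hE0 : T₀.HomZero E) {i : ℕ} {z : T₀.CH N}
    (hz : T₀.Codim i z) (r : ℕ) : F.Mem i r ((T₀.C.actL (X := N) (Y := N) E ^ r) z) := by
  induction r with
  | zero => exact (hF.bounded.zero N i z).2 hz
  | succ r ih =>
    rw [pow_succ', Module.End.mul_apply]
    refine hF.motivic hK N i r E hE ?_ _ ih
    intro a _
    have : T₀.H.cl E = 0 := hE0
    rw [this, TheoryData.act_zero]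

end power

end Nil

open Nil

theorem t_NIL (hV : S_V) : S_NIL := by
  intro T₀ T X r m _ h₀ h hD hper hm hK hF Γ hΓ hcl
  obtain ⟨F, hF⟩ := hF
  have _ : IsChowProj T₀.C := isChowProj h₀
  have _ : IsWeilProj T₀.H := isWeilProj h₀
  -- the correspondence on `X × X`
  set G2 : T.CH (T.prod (T.prod X X) (T.prod X X)) := tens T.C (dg T.C X) (Γ : T.C.A (X.prod X))
    with hG2def
  have hG2 : T.Codim (T.dim (T.prod X X)) G2 := by
    have h1 := tens_mem T.C (dg_mem T.C X) (mem_cor0.1 hΓ)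
    have e1 : ((T.dim (T.prod X X) : ℕ) : ℤ) = (X.dim : ℤ) + X.dim := by
      change (((X.prod X).dim : ℕ) : ℤ) = _
      rw [dim_prod]
      push_cast
      ring
    rw [e1]
    exact h1
  have hG2act : ∀ c : Cor T.C X, T.act G2 c = Γ * c := by
    intro c
    have h1 : ∀ Γ₀ c₀ : T.C.A (X.prod X),
        T.C.act (tens T.C (dg T.C X) Γ₀) c₀ = T.C.comp c₀ Γ₀ := by
      intro Γ₀ c₀
      rw [act_tens T.C (fun a b => ch_comm T.C a b), tp_dg, dg_comp]
    exact h1 Γ c
  have hG2cl : T.HomZero G2 := by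
    have _ : IsWeilProj T.H := isWeilProj h
    have h1 : ∀ Γ₀ : T.C.A (X.prod X), T.H.cl Γ₀ = 0 →
        T.H.cl (tens T.C (dg T.C X) Γ₀) = 0 := by
      intro Γ₀ h0
      rw [cl_tens T.H, h0, tens, map_zero, mul_zero]
    exact h1 Γ hcl
  obtain ⟨P', hP'⟩ := hm.extend G2 hG2
  obtain ⟨P, hP⟩ : ∃ P : Cor T₀.C m.N, m.Extends r G2 P := ⟨P', hP'⟩
  set M := 2 * T₀.dim m.N + 1 with hM
  have hP0 : P ∈ cor0 T₀.C m.N := hP.codim
  have hQ0 := (cor0 T₀.C m.N).pow_mem hP0 M
  have hQcoh : ∀ a : T₀.Coh m.N, T₀.cohAct (P ^ M) a ∈ m.boundary := by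
    intro a
    have h1 : actH T₀.C m.N T₀.H (P ^ M) a = (A T₀ m.N P ^ M) a := by
      rw [map_pow]
      rfl
    have h2 := all_boundary hG2cl hP a
    rw [← h1] at h2
    exact h2
  obtain ⟨E, hE1, hE2, hE3⟩ := hV T₀ T _ m.toRestriction h₀ h hD hper hm.codim _ hQ0 hQcoh
  have hstep : ∀ z : T₀.CH m.N, (T.C.actL (X := X.prod X) (Y := X.prod X) G2 ^ M) (m.res z) =
      m.res (T₀.C.actL (X := m.N) (Y := m.N) E z) := by
    intro z
    rw [res_pow (L := T.C.actL (X := X.prod X) (Y := X.prod X) G2)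
      (L₀ := T₀.C.actL (X := m.N) (Y := m.N) P) (fun z => (hP.chow z).symm)]
    have h1 : (T₀.C.actL (X := m.N) (Y := m.N) P ^ M) z =
        actC T₀.C m.N (P ^ M) z := by
      rw [map_pow]
      rfl
    rw [h1]
    exact hE3 z
  obtain ⟨z, hz1, hz2⟩ := hm.surj X.dim (dg T.C X) (dg_mem T.C X)
  have hz1' : T₀.Codim ((X.dim + m.twist : ℕ) : ℤ) z := by
    rw [Nat.cast_add]
    exact hz1
  have hzero : (T₀.C.actL (X := m.N) (Y := m.N) E ^ (X.dim + m.twist + 1)) z = 0 :=
    hF.bounded.top _ _ _ (mem_pow hF hK hE1 hE2 hz1' (X.dim + m.twist + 1))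
  have hfin : ((T.C.actL (X := X.prod X) (Y := X.prod X) G2 ^ M) ^ (X.dim + m.twist + 1))
      (m.res z) = 0 := by
    rw [res_pow hstep, hzero, map_zero]
  have hpow : ∀ (n : ℕ) (c : Cor T.C X),
      (T.C.actL (X := X.prod X) (Y := X.prod X) G2 ^ n) c = Γ ^ n * c := by
    intro n
    induction n with
    | zero => intro c; rw [pow_zero, pow_zero, one_mul]; rfl
    | succ n ih =>
      intro c
      have h1 : (T.C.actL (X := X.prod X) (Y := X.prod X) G2 ^ (n + 1)) c =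
          T.C.actL (X := X.prod X) (Y := X.prod X) G2
            ((T.C.actL (X := X.prod X) (Y := X.prod X) G2 ^ n) c) := by
        rw [pow_succ']
        rfl
      refine h1.trans ?_
      refine (congrArg _ (ih c)).trans ?_
      rw [pow_succ', mul_assoc]
      exact hG2act _
  rw [← pow_mul, hz2] at hfin
  refine ⟨M * (X.dim + m.twist + 1), ?_⟩
  have h1 := hpow (M * (X.dim + m.twist + 1)) (1 : Cor T.C X)
  rw [mul_one] at h1
  rw [← h1]
  exact hfin

end Pool.Agent.K6.H99.EX
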