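import Pool.Agent.K6.H99.EX.Main
import Pool.Agent.K6.H99.EX.Nil
import Pool.Agent.K6.H99.EX.Ckl
import Pool.Agent.K6.H99.EX.B1

/-!
# Bloch-Beilinson filtrations over a perfect field and over an extension field: the theorem
-/

set_option autoImplicit false

open CategoryTheory AlgebraicGeometry

namespace Pool.Agent.K6.H99.EX

open Pool.Agent.K6.H99.FS

/-- **Bloch-Beilinson filtrations over `K` and over `k`.** -/
theorem main {T₀ T : Theory} (hG₀ : T₀.IsGood) (hG : T.IsGood) (hp : IsPerfect T₀)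
    (hS₀ : Smirnov T₀) (hS : Smirnov T) (r : ℕ∞)
    (hm : ∀ X : T.Var, ∃ m : Model T₀ T X, IsModel r m)
    {α : TransferData T T₀} (hα : IsTransfer α) (hs : Specialises α) (c : ℕ∞) :
    (HasBBandD T₀ c → HasBBandD T (c + r)) ∧ (HasBBandD T c → HasBBandD T₀ c) :=
  ⟨up @t_CKL @t_B1 (t_NIL t_V) hG₀ hG hp hS₀ hS hm, down hG₀ hα hs⟩

end Pool.Agent.K6.H99.EX
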