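import Pool.Agent.K6.H99.EX.V

/-!
# Bloch-Beilinson filtrations over an extension field
-/

set_option autoImplicit false
set_option linter.unusedSectionVars false

open CategoryTheory AlgebraicGeometry

noncomputable section

namespace Pool.Agent.K6.H99.EX

open Pool.Agent.H914 Pool.Agent.H914.VarClass Pool.Agent.H914.VarClass.Obj Pool.Agent.W492.BB
  Pool.Agent.W550.Corr Pool.Agent.TH133 Pool.Agent.K6.H99.FS Pool.Agent.K6.H99.BB

section cpow

variable {T₀ : Theory} [hC : IsChowProj T₀.C] [hH : IsWeilProj T₀.H] {N : T₀.Var}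

/-- The powers of a self-correspondence. -/
def cpow (P : T₀.CH (T₀.prod N N)) : ℕ → T₀.CH (T₀.prod N N)
  | 0 => dg T₀.C N
  | n + 1 => T₀.C.comp (cpow P n) P

include hC hH

lemma cpow_mem {P : T₀.CH (T₀.prod N N)} (hP : T₀.Codim (T₀.dim N) P) (n : ℕ) :
    T₀.Codim (T₀.dim N) (cpow P n) := by
  induction n with
  | zero => exact dg_mem T₀.C N
  | succ n ih => exact comp_mem0 T₀.C ih hP

lemma act_cpow (P : T₀.CH (T₀.prod N N)) (n : ℕ) (x : T₀.CH N) :
    T₀.C.act (cpow P n) x = (T₀.C.act P)^[n] x := by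
  induction n with
  | zero => exact act_dg T₀.C x
  | succ n ih => rw [Function.iterate_succ_apply', ← ih]; exact T₀.C.act_comp _ _ _

lemma actH_cpow (P : T₀.CH (T₀.prod N N)) (n : ℕ) (a : T₀.Coh N) :
    T₀.H.act (T₀.H.cl (cpow P n)) a = (T₀.H.act (T₀.H.cl P))^[n] a := by
  induction n with
  | zero => exact actH_dg T₀.H a
  | succ n ih => rw [Function.iterate_succ_apply', ← ih]; exact actH_comp T₀.H _ _ _

end cpow

variable {T₀ T : Theory} {X : T.Var} {r₀ : ℕ∞} {m : Model T₀ T X}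

lemma res_iter {Γ : T.CH (T.prod X X)} {P : T₀.CH (T₀.prod m.N m.N)} (h : m.Extends r₀ Γ P) (n : ℕ)
    (x : T₀.CH m.N) : m.res ((T₀.C.act P)^[n] x) = (T.C.act Γ)^[n] (m.res x) := by
  induction n with
  | zero => rfl
  | succ n ih =>
    rw [Function.iterate_succ_apply', Function.iterate_succ_apply', ← ih]
    exact h.chow _

lemma iter_idem {A : Type*} {f : A → A} (hf : ∀ x, f (f x) = f x) (n : ℕ) (x : A) :
    f (f^[n] x) = f x := by
  induction n with
  | zero => rfl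
  | succ n ih => rw [Function.iterate_succ_apply', hf, ih]

/-- **The main step.** If for `n₁ ≤ n < n₀` a positive power of `P` maps `H^(2i-n)(N)` to the boundary,
and if `F^(n₀) CH^i(N) = 0`, then `Γ` acts as zero on the restrictions of the cycles in
`F^(n₁) CH^i(N)`. -/
theorem step (hG₀ : T₀.IsGood) (hG : T.IsGood) (hD : HomEqNum T₀) (hp : IsPerfect T₀)
    (hm : IsModel r₀ m) (hK : KunnethConjecture T₀.H) {F : Filtration T₀.C} (hF : IsBB T₀.H F)
    {Γ : T.CH (T.prod X X)} (hid : ∀ x, T.C.act Γ (T.C.act Γ x) = T.C.act Γ x)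
    {P : T₀.CH (T₀.prod m.N m.N)} (hP : m.Extends r₀ Γ P) (i n₁ n₀ : ℕ)
    (hn₀ : ∀ z : T₀.CH m.N, F.Mem i n₀ z → z = 0)
    (hb : ∀ n w : ℕ, n₁ ≤ n → n < n₀ → w + n = 2 * i → ∃ M : ℕ, ∀ a : T₀.Coh m.N,
      T₀.Degree w a → (T₀.cohAct P)^[M + 1] a ∈ m.boundary) (s : ℕ) :
    ∀ (n : ℕ) (z : T₀.CH m.N), n₁ ≤ n → n + s = n₀ → F.Mem i n z →
      T.C.act Γ (m.res z) = 0 := by
  have hC : IsChowProj T₀.C := isChowProj hG₀
  have hH : IsWeilProj T₀.H := isWeilProj hG₀
  have hC' : IsChowProj T.C := isChowProj hG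
  have hH' : IsWeilProj T.H := isWeilProj hG
  induction s with
  | zero =>
    intro n z _ hn hz
    rw [add_zero] at hn
    subst hn
    rw [hn₀ z hz, map_zero]
    exact TheoryData.act_map_zero _ _
  | succ s ih =>
    intro n z hn1 hn hz
    by_cases hni : i < n
    · have h0 : z = 0 := by
        refine hF.bounded.top _ _ _ (?_ : F.Mem i (i + 1) z)
        have hanti : ∀ t, F.Mem i (i + 1 + t) z → F.Mem i (i + 1) z := by
          intro t
          induction t with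
          | zero => exact fun h => h
          | succ t iht => exact fun h => iht (F.anti _ _ _ h)
        exact hanti (n - (i + 1)) (by rwa [show i + 1 + (n - (i + 1)) = n by omega])
      rw [h0, map_zero]
      exact TheoryData.act_map_zero _ _
    obtain ⟨w, hw⟩ : ∃ w : ℕ, w + n = 2 * i := ⟨2 * i - n, by omega⟩
    obtain ⟨M, hM⟩ := hb n w hn1 (by omega) hw
    obtain ⟨ρ, hρ, hρa⟩ := hK m.N w
    let Q : T₀.CH (T₀.prod m.N m.N) := T₀.C.comp ρ (cpow P (M + 1))
    have hQ : T₀.Codim (T₀.dim m.N) Q := comp_mem0 T₀.C hρ (cpow_mem hP.codim _)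
    have hQb : ∀ a : T₀.Coh m.N, T₀.cohAct Q a ∈ m.boundary := by
      intro a
      change T₀.H.act (T₀.H.cl (T₀.C.comp ρ (cpow P (M + 1)))) a ∈ m.boundary
      refine induct (T₀.H.isInternal m.N)
        (p := fun a => T₀.H.act (T₀.H.cl (T₀.C.comp ρ (cpow P (M + 1)))) a ∈ m.boundary)
        ?_ ?_ ?_ a
      · rw [TheoryData.act_map_zero]; exact Submodule.zero_mem _
      · intro a b h1 h2
        rw [act_map_add]; exact Submodule.add_mem _ h1 h2
      · intro l a ha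
        rw [actH_comp, hρa l a ha]
        split_ifs with hl
        · subst hl
          rw [actH_cpow]
          exact hM a ha
        · rw [TheoryData.act_map_zero]; exact Submodule.zero_mem _
    obtain ⟨E, hE, hE0, hEr⟩ := t_V T₀ T X m.toRestriction hG₀ hG hD hp hm.codim Q hQ hQb
    have hEz : F.Mem i (n + 1) (T₀.C.act E z) := by
      refine hF.motivic hK m.N i n E hE ?_ z hz
      intro a _
      rw [show T₀.H.cl E = 0 from hE0, TheoryData.act_zero]
    have hz' : F.Mem i (n + 1) (T₀.C.act (dg T₀.C m.N - ρ) z) := by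
      refine hF.motivic hK m.N i n _ (Submodule.sub_mem _ (dg_mem T₀.C _) hρ) ?_ z hz
      intro a ha
      rw [map_sub, T₀.H.act_sub, actH_dg, hρa _ a ha, if_pos (by omega), sub_self]
    have h1 := ih (n + 1) _ (by omega) (by omega) hEz
    have h2 := ih (n + 1) _ (by omega) (by omega) hz'
    have h3 : (T.C.act Γ)^[M + 1] (m.res z) = m.res (T₀.C.act E z) +
        (T.C.act Γ)^[M + 1] (m.res (T₀.C.act (dg T₀.C m.N - ρ) z)) := by
      rw [← res_iter hP, ← res_iter hP, ← act_cpow, ← act_cpow]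
      have h4 := hEr z
      change m.res (T₀.C.act (T₀.C.comp ρ (cpow P (M + 1))) z) = m.res (T₀.C.act E z) at h4
      rw [← h4, T₀.C.act_comp, ← map_add, ← act_map_add, T₀.C.act_sub, act_dg,
        add_sub_cancel]
    have h5 := congrArg (T.C.act Γ) h3
    rw [iter_idem hid, act_map_add, h1, iter_idem hid, h2, add_zero] at h5
    exact h5

/-- The weights of the models. -/
theorem claim (hG₀ : T₀.IsGood) (hG : T.IsGood) (hD : HomEqNum T₀) (hp : IsPerfect T₀)
    (hm : IsModel r₀ m) (hK : KunnethConjecture T₀.H) {F : Filtration T₀.C} (hF : IsBB T₀.H F)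
    {j : ℕ} {Γ : T.CH (T.prod X X)} (hid : ∀ x, T.C.act Γ (T.C.act Γ x) = T.C.act Γ x)
    (hk : ∀ l : ℤ, l < j → T.Kill Γ l) {P : T₀.CH (T₀.prod m.N m.N)} (hP : m.Extends r₀ Γ P)
    (i : ℕ) {n : ℕ} {z : T₀.CH m.N} (hn : n ≤ i + 1) (hij : 2 * i < n + j + 2 * m.twist)
    (hz : F.Mem i n z) : T.C.act Γ (m.res z) = 0 := by
  have hC : IsChowProj T₀.C := isChowProj hG₀
  have hH : IsWeilProj T₀.H := isWeilProj hG₀
  refine step hG₀ hG hD hp hm hK hF hid hP i n (i + 1) (fun z hz => hF.bounded.top _ _ _ hz)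
    (fun n' w h1 h2 h3 => ⟨w, fun a ha => ?_⟩) (i + 1 - n) n z le_rfl (by omega) hz
  rw [Function.iterate_succ_apply]
  refine hP.leray w _ ?_ ?_ ?_
  · exact actH_mem0 (C := T₀.C) (H := T₀.H) (a := (P : Cor T₀.C m.N)) hP.codim ha
  · intro g
    have h1 := hP.coh g a
    change m.resH g (T₀.H.act (T₀.H.cl P) a) = _ at h1
    change m.resH g (T₀.H.act (T₀.H.cl P) a) = 0
    rw [h1]
    exact hk (w - 2 * m.twist) (by omega) _ (hm.degree _ _ _ (by rwa [sub_add_cancel]))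
  · intro l hl
    exact hk l (by omega)

/-- The length of the filtration. -/
theorem claim_length (hG₀ : T₀.IsGood) (hG : T.IsGood) (hD : HomEqNum T₀) (hp : IsPerfect T₀)
    (hm : IsModel r₀ m) (hK : KunnethConjecture T₀.H) {F : Filtration T₀.C} (hF : IsBB T₀.H F)
    {c r : ℕ} (hc : HasLength F c) (hr : r₀ = r)
    {j : ℕ} {Γ : T.CH (T.prod X X)} (hid : ∀ x, T.C.act Γ (T.C.act Γ x) = T.C.act Γ x)
    (hk : ∀ l : ℤ, l ≠ j → T.Kill Γ l) {P : T₀.CH (T₀.prod m.N m.N)} (hP : m.Extends r₀ Γ P)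
    (i : ℕ) {z : T₀.CH m.N} (hij : j + c + r + 2 * m.twist < 2 * i) (hz : F.Mem i 0 z) :
    T.C.act Γ (m.res z) = 0 := by
  refine step hG₀ hG hD hp hm hK hF hid hP i 0 (c + 1)
    (fun z hz => hc _ i (c + 1) z (by exact_mod_cast Nat.lt_succ_self c) hz)
    (fun n w h1 h2 h3 => ⟨r, fun a ha => hP.artin r hr w a ha fun l hl => hk l ?_⟩)
    (c + 1) 0 z le_rfl (by omega) hz
  omega

section steps

variable (hG₀ : T₀.IsGood) (hG : T.IsGood) (hD : HomEqNum T₀) (hp : IsPerfect T₀)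
  (hK : KunnethConjecture T₀.H) {F : Filtration T₀.C} (hF : IsBB T₀.H F)

include hG₀ hG hD hp hK hF

/-- The first half of (B). -/
theorem b0 (hm : IsModel r₀ m) {π : ℕ → T.CH (T.prod X X)} (hπ : IsCK T.H X π) (i j : ℕ)
    (x : T.CH X) (hx : T.Codim i x) (hij : 2 * i < j) : T.C.act (π j) x = 0 := by
  have hC' : IsChowProj T.C := isChowProj hG
  obtain ⟨z, hz, rfl⟩ := hm.surj i x hx
  obtain ⟨P, hP⟩ := hm.extend (π j) (hπ.deg j)
  refine claim (j := j) hG₀ hG hD hp hm hK hF (fun x => ?_) (fun l hl a ha => ?_) hP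
    (i + m.twist) (n := 0) (by omega) (by omega) ((hF.bounded.zero _ _ _).2 (by exact_mod_cast hz))
  · rw [← T.C.act_comp, hπ.idem]
  · exact hπ.act_ne j l a (by omega) ha

/-- The conjecture (D) of Murre. -/
theorem dd (hm : IsModel r₀ m) {π : ℕ → T.CH (T.prod X X)} (hπ : IsCK T.H X π) (i : ℕ)
    (x : T.CH X) (hx : T.Codim i x) (h0 : T.H.cl x = 0) : T.C.act (π (2 * i)) x = 0 := by
  have hC : IsChowProj T₀.C := isChowProj hG₀
  have hH : IsWeilProj T₀.H := isWeilProj hG₀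
  have hC' : IsChowProj T.C := isChowProj hG
  obtain ⟨z, hz, rfl⟩ := hm.surj i x hx
  obtain ⟨P, hP⟩ := hm.extend (π (2 * i)) (hπ.deg _)
  have hid : ∀ x, T.C.act (π (2 * i)) (T.C.act (π (2 * i)) x) = T.C.act (π (2 * i)) x :=
    fun x => by rw [← T.C.act_comp, hπ.idem]
  have hk : ∀ l : ℤ, l < (2 * i : ℕ) → T.Kill (π (2 * i)) l :=
    fun l hl a ha => hπ.act_ne _ l a (by omega) ha
  have hz' : T₀.Codim ((i + m.twist : ℕ) : ℤ) z := by exact_mod_cast hz
  have h1 : T₀.H.cl ((T₀.C.act P)^[2 * (i + m.twist)] z) ∈ m.boundary := by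
    have h2 := hP.leray (2 * (i + m.twist)) (T₀.H.cl z) (by exact_mod_cast T₀.H.cl_mem hz')
      (fun g => by rw [show m.resH g (T₀.H.cl z) = _ from hm.cycle g z]; exact h0)
      (fun l hl => hk l (by push_cast at hl ⊢; omega))
    have h3 : T₀.H.cl ((T₀.C.act P)^[2 * (i + m.twist)] z) =
        (T₀.H.act (T₀.H.cl P))^[2 * (i + m.twist)] (T₀.H.cl z) := by
      rw [← act_cpow, cl_act T₀.H, actH_cpow]
    rw [h3]
    exact h2
  have h4 : T₀.Codim ((i + m.twist : ℕ) : ℤ) ((T₀.C.act P)^[2 * (i + m.twist)] z) := by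
    rw [← act_cpow]
    exact act_mem0 T₀.C (cpow_mem hP.codim _) hz'
  obtain ⟨y, hy, hy0, hyr⟩ := elem_boundary m.toRestriction hG₀ hG hD hp hm.codim h4 h1
  have h5 := claim hG₀ hG hD hp hm hK hF hid hk hP (i + m.twist) (n := 1) (by omega) (by omega)
    ((hF.bounded.one _ _ _).2 ⟨hy, hy0⟩)
  rw [hyr, res_iter hP, iter_idem hid] at h5
  exact h5

/-- The components of small degree vanish. -/
theorem len (hm : IsModel r₀ m) {c r : ℕ} (hc : HasLength F c) (hr : r₀ = r)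
    {π : ℕ → T.CH (T.prod X X)} (hπ : IsCK T.H X π) (i j : ℕ) (x : T.CH X) (hx : T.Codim i x)
    (hij : j + c + r < 2 * i) : T.C.act (π j) x = 0 := by
  have hC' : IsChowProj T.C := isChowProj hG
  obtain ⟨z, hz, rfl⟩ := hm.surj i x hx
  obtain ⟨P, hP⟩ := hm.extend (π j) (hπ.deg j)
  refine claim_length (j := j) hG₀ hG hD hp hm hK hF hc hr (fun x => ?_) (fun l hl a ha => ?_) hP
    (i + m.twist) (by omega) ((hF.bounded.zero _ _ _).2 (by exact_mod_cast hz))
  · rw [← T.C.act_comp, hπ.idem]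
  · exact hπ.act_ne j l a (by omega) ha

end steps

/-- Homological and numerical equivalence over `K`. -/
theorem homEqNum_up (hD : HomEqNum T₀) (hm : ∀ X : T.Var, ∃ m : Restriction T₀ T X, m.Detects) :
    HomEqNum T := by
  intro X z hz
  by_contra h
  obtain ⟨m, hm⟩ := hm X
  obtain ⟨ψ, hψ, h1⟩ := hm z h
  exact hψ (hD _ _ fun w => h1 w (hz _))

/-- **From `k` to `K`.** -/
theorem up (hCKL : S_CKL) (hB1 : S_B1) (hNIL : S_NIL) (hG₀ : T₀.IsGood) (hG : T.IsGood)
    (hp : IsPerfect T₀) (hS₀ : Smirnov T₀) (hS : Smirnov T)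
    (hm : ∀ X : T.Var, ∃ m : Model T₀ T X, IsModel r₀ m) {c : ℕ∞} (h : HasBBandD T₀ c) :
    HasBBandD T (c + r₀) := by
  obtain ⟨⟨F, hF, -, hlen⟩, hD⟩ := h
  have hC' : IsChowProj T.C := isChowProj hG
  have hH' : IsWeilProj T.H := isWeilProj hG
  have hD' := homEqNum_up hD fun X => (hm X).imp' Model.toRestriction fun _ h => h.detect
  obtain ⟨hK, -⟩ := hS₀ hD
  obtain ⟨hK', hL⟩ := hS hD'
  have hN : ∀ X : T.Var, Nilpotent T.H X := by
    intro X
    obtain ⟨m, hm⟩ := hm (T.prod X X)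
    exact hNIL T₀ T X r₀ m hG₀ hG hD hp hm hK ⟨F, hF⟩
  have hsys : IsSystem T.H (fun X π => IsCK T.H X π) :=
    ⟨fun X => hCKL T.H X (hK' X) (hN X), fun h => h, fun h h' => h.prod h', fun h => h.dual⟩
  have hB0 : SysB0 (C := T.C) (fun X π => IsCK T.H X π) := by
    intro X π hπ i j x hx hij
    obtain ⟨m, hm⟩ := hm X
    exact b0 hG₀ hG hD hp hK hF hm hπ i j x hx hij
  have hBB1 : SysB1 (C := T.C) (fun X π => IsCK T.H X π) := by
    intro X π hπ i j x hx hij
    obtain ⟨h, hh, hN'⟩ := hL X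
    refine hB1 T.H X (hN X) h hh (fun m hm => ?_) π hπ i j x hx hij
    obtain ⟨N, hN1, hN2, -⟩ := hN' m hm
    exact ⟨N, hN1, hN2⟩
  have hDD : SysD T.H (fun X π => IsCK T.H X π) := by
    intro X π hπ i x hx h0
    obtain ⟨m, hm⟩ := hm X
    exact dd hG₀ hG hD hp hK hF hm hπ i x hx h0
  refine ⟨⟨sysF T.C (fun X π => IsCK T.H X π), isBB_sysF hsys hB0 hBB1 hDD, ?_, ?_⟩, hD'⟩
  · intro X Y i j n Γ x hΓ hx
    change x ∈ (sysF T.C _).F X i n at hx
    obtain ⟨π, hπ⟩ := hsys.exists_good X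
    rw [mem_sysF] at hx
    have hdeg : T.C.act Γ x ∈ T.C.gr Y j := by
      have h1 := act_mem' T.C (e := (j : ℤ) - i) (i := i) (Γ := Γ)
        (by rw [← add_sub_assoc]; exact hΓ) hx.1
      rwa [add_sub_cancel] at h1
    constructor
    · change T.C.act Γ x ∈ (sysF T.C _).F Y j n
      rw [mem_sysF]
      exact ⟨hdeg, fun ρ hρ b hb => stable_aux hsys hB0 hπ hρ hΓ (hx.2 π hπ) b hb⟩
    · intro hk
      change T.C.act Γ x ∈ (sysF T.C _).F Y j (n + 1)
      rw [mem_sysF]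
      exact ⟨hdeg, fun ρ hρ b hb =>
        shift_aux hsys hB0 hDD hπ hρ hΓ hk hx.1 (hx.2 π hπ) b hb⟩
  · intro X i n x hn hx
    have hct : c ≠ ⊤ := by
      rintro rfl
      simp at hn
    have hrt : r₀ ≠ ⊤ := by
      rintro rfl
      simp at hn
    obtain ⟨c, rfl⟩ := ENat.ne_top_iff_exists.1 hct
    obtain ⟨r, rfl⟩ := ENat.ne_top_iff_exists.1 hrt
    have hn' : c + r < n := by exact_mod_cast hn
    change x ∈ (sysF T.C _).F X i n at hx
    obtain ⟨π, hπ⟩ := hsys.exists_good X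
    rw [mem_sysF] at hx
    obtain ⟨m, hm⟩ := hm X
    change x = 0
    rw [sum_act hsys hπ x]
    refine Finset.sum_eq_zero fun j _ => ?_
    by_cases hj : 2 * i + 1 - n ≤ j
    · exact hx.2 π hπ j hj
    · exact len hG₀ hG hD hp hK hF hm hlen rfl hπ i j x hx.1 (by omega)

/-- **From `K` to `k`.** -/
theorem down (hG₀ : T₀.IsGood) {α : TransferData T T₀} (hα : IsTransfer α)
    (hs : Specialises α) {c : ℕ∞} (h : HasBBandD T c) : HasBBandD T₀ c := by
  obtain ⟨⟨F, hF, hF', hlen⟩, hD⟩ := h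
  have hC : IsChowProj T₀.C := isChowProj hG₀
  have hst : IsStrongBB T.H F :=
    ⟨hF.bounded, fun hx hy => hF.multiplicative.mul hx hy,
      fun hΓ hx => (hF' _ _ _ _ _ _ _ hΓ hx).1, fun hΓ hk hx => (hF' _ _ _ _ _ _ _ hΓ hx).2 hk⟩
  have h1 := isStrongBB_transfer (isTransfer_of hα) hst
  refine ⟨⟨transfer α.map F, h1.isBB, isStrong_of h1, fun W i n x hn hx =>
    hα.inj W x (hlen _ i n _ hn hx.2)⟩, ?_⟩
  intro W z hz
  refine (hα.hom W z).1 (hD _ _ fun w => ?_)
  by_contra h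
  obtain ⟨w', hw'⟩ := hs W z w h
  exact hw' (hz w')

end Pool.Agent.K6.H99.EX
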