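import Pool.Agent.K6.H99.EX.StmV

/-!
# Numerical triviality in terms of the orientation of the cohomology (helper66)
-/

set_option autoImplicit false

open CategoryTheory AlgebraicGeometry

noncomputable section

namespace Pool.Agent.K6.H99.EX

open Pool.Agent.H914 Pool.Agent.H914.VarClass Pool.Agent.H914.VarClass.Obj Pool.Agent.W492.BB
  Pool.Agent.W550.Corr Pool.Agent.TH133 Pool.Agent.TH829.Prime

theorem t_NUM : S_NUM := by
  intro k _ 𝒱 C _ K _ H _ X i a hai
  obtain ⟨a0, ha0, hp1, hp2⟩ := exists_deg_one C X
  -- (1)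
  have h1 : ∀ (x : C.A X) (q : ℚ), HasDegree C x q → H.tr X (H.cl x) = H.tr X (H.cl (q • a0)) := by
    intro x q hq
    have e1 : C.push (fst X X) (C.pull (fst X X) x * C.pull (snd X X) a0) = x := by
      rw [C.proj_left, hp1, mul_one]
    have e2 : C.push (snd X X) (C.pull (fst X X) x * C.pull (snd X X) a0) = q • a0 := by
      rw [C.proj_right, (hq X).1, smul_mul_assoc, one_mul]
    calc H.tr X (H.cl x) = H.tr X (H.cl (C.push (fst X X)
          (C.pull (fst X X) x * C.pull (snd X X) a0))) := by rw [e1]
      _ = H.tr X (H.cl (C.push (snd X X) (C.pull (fst X X) x * C.pull (snd X X) a0))) := by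
          rw [H.cl_push, H.tr_push, H.cl_push, H.tr_push]
      _ = H.tr X (H.cl (q • a0)) := by rw [e2]
  -- (2)
  have h2 : H.tr X (H.cl a0) ≠ 0 := by
    intro h0
    apply IsWeilProj.one_ne_zero (H := H) X
    apply H.nondeg
    intro b
    rw [one_mul]
    have htr : H.tr X = 0 := by
      apply ext_gr H
      intro m b hb
      rw [LinearMap.zero_apply]
      by_cases hm : m = 2 * X.dim
      · subst hm
        have hc := H.push_mem (snd X X) (H.pull_mem (fst X X) hb)
        have e3 : (2 * (X.dim : ℤ) + 2 * ((X.dim : ℤ) - ((X.prod X).dim : ℤ))) = 0 := by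
          rw [dim_prod]; push_cast; ring
        rw [e3] at hc
        obtain ⟨κ, hκ⟩ := IsWeilProj.gr_zero (H := H) X _ hc
        have e4 : H.push (fst X X) (H.pull (fst X X) b * H.pull (snd X X) (H.cl a0)) = b := by
          rw [H.proj_left, ← H.cl_pull, ← H.cl_push, hp1, map_one, mul_one]
        have e5 : H.push (snd X X) (H.pull (fst X X) b * H.pull (snd X X) (H.cl a0)) =
            κ • H.cl a0 := by
          rw [H.proj_right, hκ, smul_mul_assoc, one_mul]
        calc H.tr X b = H.tr X (H.push (fst X X)
              (H.pull (fst X X) b * H.pull (snd X X) (H.cl a0))) := by rw [e4]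
          _ = H.tr X (H.push (snd X X)
              (H.pull (fst X X) b * H.pull (snd X X) (H.cl a0))) := by
              rw [H.tr_push, H.tr_push]
          _ = 0 := by rw [e5, map_smul, h0, smul_zero]
      · exact tr_zero H hb hm
    rw [htr, LinearMap.zero_apply]
  -- (3)
  have h3 : ∀ q : ℚ, H.tr X (H.cl (q • a0)) = 0 → q = 0 := by
    intro q hq
    by_contra hq0
    have hd : H.cl (q • (1 : C.A X)) ∈ H.gr X 0 := by
      have := H.cl_mem (Submodule.smul_mem (C.gr X 0) q (C.one_mem X))
      rwa [mul_zero] at this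
    obtain ⟨l, hl⟩ := IsWeilProj.gr_zero (H := H) X _ hd
    have hl0 : l ≠ 0 := by
      intro hl0
      rw [hl0, zero_smul] at hl
      have h4 : H.cl (q • (1 : C.A X)) * H.cl (q⁻¹ • (1 : C.A X)) = 1 := by
        rw [← map_mul, smul_mul_smul_comm, mul_one, mul_inv_cancel₀ hq0, one_smul, map_one]
      rw [hl, zero_mul] at h4
      exact IsWeilProj.one_ne_zero (H := H) X h4.symm
    have h5 : H.cl (q • a0) = l • H.cl a0 := by
      have : q • a0 = (q • (1 : C.A X)) * a0 := by rw [smul_mul_assoc, one_mul]
      rw [this, map_mul, hl, smul_mul_assoc, one_mul]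
    rw [h5, map_smul, smul_eq_mul] at hq
    exact (mul_ne_zero hl0 h2) hq
  constructor
  · intro hnum w
    have hw : w ∈ ⨆ j, C.gr X j := by
      rw [(C.isInternal X).submodule_iSup_eq_top]; trivial
    induction hw using Submodule.iSup_induction' with
    | mem j w hw =>
      by_cases hj : j = (X.dim : ℤ) - i
      · subst hj
        have h4 := h1 (a * w) 0 (hnum w hw)
        rw [h4, zero_smul, map_zero, map_zero]
      · exact tr_zero H (H.cl_mem (C.mul_mem hai hw)) (by omega)
    | zero => rw [mul_zero, map_zero, map_zero]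
    | add x y _ _ hx hy => rw [mul_add, map_add, map_add, hx, hy, add_zero]
  · intro h b hb
    have hab : a * b ∈ C.gr X X.dim := by
      have := C.mul_mem hai hb
      rwa [add_sub_cancel] at this
    obtain ⟨q, hq⟩ := exists_hasDegree hab
    have h4 := h1 _ q hq
    rw [h b] at h4
    have h5 := h3 q h4.symm
    rw [h5] at hq
    exact hq

end Pool.Agent.K6.H99.EX
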