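import Pool.Agent.K6.H99.EX.StmV

/-!
# Piece SM: smash-nilpotent classes are homologically trivial (helper70, for helper99)
-/

set_option autoImplicit false

open CategoryTheory AlgebraicGeometry

noncomputable section

namespace Pool.Agent.K6.H99.EX

open Pool.Agent.H914 Pool.Agent.H914.VarClass Pool.Agent.H914.VarClass.Obj Pool.Agent.W492.BB
  Pool.Agent.W550.Corr Pool.Agent.TH133 Pool.Agent.TH829.Prime

namespace SM

variable {k : Type} [Field k] {𝒱 : VarClass k} {C : TheoryData.{0, 0, 0} 𝒱 ℚ} [hC : IsChowProj C]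
  {K : Type} [Field K] (H : WeilTheoryData.{0, 0, 0} C K) [hH : IsWeilProj H] {X Y : 𝒱.Obj}

include hC hH

/-- A nonzero class pairs nontrivially with some homogeneous class. -/
lemma exists_pair {a : H.A X} (ha : a ≠ 0) : ∃ (j : ℤ) (b : H.A X), b ∈ H.gr X j ∧
    H.tr X (a * b) ≠ 0 := by
  by_contra hcon
  push Not at hcon
  apply ha
  apply H.nondeg
  have h0 : (H.tr X ∘ₗ LinearMap.mulLeft K a) = 0 := by
    apply ext_gr H
    intro j b hb
    rw [LinearMap.comp_apply, LinearMap.mulLeft_apply, LinearMap.zero_apply]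
    exact hcon j b hb
  intro b
  exact LinearMap.congr_fun h0 b

/-- The external product of two cycles which are not homologically trivial is not homologically
trivial. -/
lemma cl_ext {i : ℤ} {x : C.A X} (hx : x ∈ C.gr X i) (y : C.A Y) (h : H.cl (C.ext x y) = 0) :
    H.cl x = 0 ∨ H.cl y = 0 := by
  by_cases hx0 : H.cl x = 0
  · exact Or.inl hx0
  right
  obtain ⟨j, b, hb, hne⟩ := exists_pair H hx0
  have hdeg : 2 * i + j = 2 * (X.dim : ℤ) := by
    by_contra hd
    exact hne (tr_zero H (H.mul_mem (H.cl_mem hx) hb) hd)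
  have he : H.cl x * b ∈ H.gr X (2 * (X.dim : ℤ)) := hdeg ▸ H.mul_mem (H.cl_mem hx) hb
  set e : H.A X := H.cl x * b with hedef
  have hc : H.push (snd X Y) (H.pull (fst X Y) e) ∈ H.gr Y 0 := by
    have h1 := H.push_mem (snd X Y) (H.pull_mem (fst X Y) he)
    have h2 : 2 * (X.dim : ℤ) + 2 * ((Y.dim : ℤ) - ((X.prod Y).dim : ℤ)) = 0 := by
      rw [dim_prod]; push_cast; ring
    rw [h2] at h1
    exact h1
  obtain ⟨κ, hκ⟩ := hH.gr_zero Y _ hc
  have hκ0 : κ ≠ 0 := by
    intro h0
    rw [h0, zero_smul] at hκ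
    obtain ⟨a0, -, h1, -⟩ := Pool.Agent.W492.BB.exists_deg_one C Y
    apply hne
    have h2 : H.tr Y (H.push (snd X Y) (H.pull (fst X Y) e) * H.cl a0) = H.tr X e := by
      rw [← H.proj_right, H.tr_push, ← H.tr_push (fst X Y), ← H.cl_pull, H.proj_left,
        ← H.cl_push, h1 X, map_one, mul_one]
    rw [← h2, hκ, zero_mul, map_zero]
  have h3 : H.push (snd X Y) (H.cl (C.ext x y) * H.pull (fst X Y) b) = κ • H.cl y := by
    have h4 : H.cl (C.ext x y) * H.pull (fst X Y) b =
        H.pull (fst X Y) e * H.pull (snd X Y) (H.cl y) := by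
      rw [TheoryData.ext, map_mul, H.cl_pull, mul_assoc, H.cl_central, ← mul_assoc, ← map_mul,
        H.cl_pull]
    rw [h4, H.proj_right, hκ, smul_mul_assoc, one_mul]
  rw [h, zero_mul, map_zero] at h3
  exact (smul_eq_zero.1 h3.symm).resolve_left hκ0

lemma cl_extPow {i : ℤ} {a : C.A X} (ha : a ∈ C.gr X i) (m : ℕ) (h : H.cl (extPow C a m) = 0) :
    H.cl a = 0 := by
  induction m with
  | zero => exact h
  | succ m ih =>
    rcases cl_ext H ha (extPow C a m) h with h1 | h1
    · exact h1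
    · exact ih h1

end SM

theorem t_SM : S_SM := by
  intro k _ 𝒱 C _ K _ H _ X i a ha h
  obtain ⟨m, hm⟩ := h
  exact SM.cl_extPow H ha m (by rw [hm, map_zero])

end Pool.Agent.K6.H99.EX
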