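import Pool.Agent.K6.H99.EX.Defs
import Pool.Agent.K6.H99.FS.Gen
import Pool.Agent.K6.H99.BB.Murre

/-!
# Bloch-Beilinson filtrations over an extension field: the steps
-/

set_option autoImplicit false

open CategoryTheory AlgebraicGeometry

noncomputable section

namespace Pool.Agent.K6.H99.EX

open Pool.Agent.H914 Pool.Agent.H914.VarClass Pool.Agent.H914.VarClass.Obj Pool.Agent.W492.BB
  Pool.Agent.W550.Corr Pool.Agent.TH133 Pool.Agent.K6.H99.FS

/-- Homologically trivial self-correspondences of degree zero of `X` are nilpotent. -/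
def Nilpotent {k : Type} [Field k] {𝒱 : VarClass k} {C : TheoryData.{0, 0, 0} 𝒱 ℚ} [IsChowProj C]
    {K : Type} [Field K] (H : WeilTheoryData.{0, 0, 0} C K) (X : 𝒱.Obj) : Prop :=
  ∀ Γ : Cor C X, Γ ∈ cor0 C X → H.cl (X := X.prod X) Γ = 0 → IsNilpotent Γ

/-- Chow-Kunneth decompositions by lifting of idempotents. -/
def S_CKL : Prop :=
  ∀ {k : Type} [Field k] {𝒱 : VarClass k} {C : TheoryData.{0, 0, 0} 𝒱 ℚ} [IsChowProj C]
    {K : Type} [Field K] (H : WeilTheoryData.{0, 0, 0} C K) [IsWeilProj H] (X : 𝒱.Obj),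
    (∀ m : ℕ, ∃ π : C.A (X.prod X), C.Deg X.dim π ∧ ∀ (l : ℤ) (a : H.A X),
      H.Deg l a → H.act (H.cl π) a = if l = m then a else 0) →
    Nilpotent H X → ∃ π, IsCK H X π

/-- The second half of (B) from the conjecture of Lefschetz type and nilpotence. -/
def S_B1 : Prop :=
  ∀ {k : Type} [Field k] {𝒱 : VarClass k} {C : TheoryData.{0, 0, 0} 𝒱 ℚ} [IsChowProj C]
    {K : Type} [Field K] (H : WeilTheoryData.{0, 0, 0} C K) [IsWeilProj H] (X : 𝒱.Obj),
    Nilpotent H X → ∀ (h : C.A X), C.Deg 1 h →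
    (∀ m : ℕ, m ≤ X.dim → ∃ N : C.A (X.prod X), C.Deg m N ∧
      ∀ a : H.A X, H.Deg m a → H.act (H.cl N) (H.cl (h ^ (X.dim - m)) * a) = a) →
    ∀ π, IsCK H X π → ∀ (i j : ℕ) (x : C.A X), x ∈ C.gr X i → j < i → C.act (π j) x = 0

/-- Correspondences whose values lie in the boundary. -/
def S_V : Prop :=
  ∀ (T₀ T : Theory) (X : T.Var) (m : Restriction T₀ T X), T₀.IsGood → T.IsGood → HomEqNum T₀ →
    IsPerfect T₀ → m.Graded → ∀ P : T₀.CH (T₀.prod m.N m.N), T₀.Codim (T₀.dim m.N) P →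
    (∀ a : T₀.Coh m.N, T₀.cohAct P a ∈ m.boundary) →
    ∃ E : T₀.CH (T₀.prod m.N m.N), T₀.Codim (T₀.dim m.N) E ∧ T₀.HomZero E ∧
      ∀ x : T₀.CH m.N, m.res (T₀.act P x) = m.res (T₀.act E x)

/-- Nilpotence over `K`. -/
def S_NIL : Prop :=
  ∀ (T₀ T : Theory) (X : T.Var) (r : ℕ∞) (m : Model T₀ T (T.prod X X)) [IsChowProj T.C],
    T₀.IsGood → T.IsGood → HomEqNum T₀ → IsPerfect T₀ → IsModel r m → KunnethConjecture T₀.H →
    (∃ F : Filtration T₀.C, IsBB T₀.H F) → Nilpotent T.H X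

end Pool.Agent.K6.H99.EX
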