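import Pool.Agent.TH829.Prime.Theory
import Pool.Agent.TH133.Ext

/-!
# Smash-nilpotence and numerical equivalence: statements
-/

set_option autoImplicit false

open CategoryTheory AlgebraicGeometry

noncomputable section

namespace Pool.Agent.K6.H99.EX

open Pool.Agent.H914 Pool.Agent.H914.VarClass Pool.Agent.H914.VarClass.Obj Pool.Agent.W492.BB
  Pool.Agent.W550.Corr Pool.Agent.TH133 Pool.Agent.TH829.Prime

/-- Smash-nilpotent classes are homologically trivial. -/
def S_SM : Prop :=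
  ∀ {k : Type} [Field k] {𝒱 : VarClass k} {C : TheoryData.{0, 0, 0} 𝒱 ℚ} [IsChowProj C]
    {K : Type} [Field K] (H : WeilTheoryData.{0, 0, 0} C K) [IsWeilProj H] (X : 𝒱.Obj) (i : ℤ)
    (a : C.A X), C.Deg i a → SmashNilpotent C a → H.cl a = 0

/-- Numerically trivial classes in terms of the orientation of the cohomology. -/
def S_NUM : Prop :=
  ∀ {k : Type} [Field k] {𝒱 : VarClass k} {C : TheoryData.{0, 0, 0} 𝒱 ℚ} [IsChowProj C]
    {K : Type} [Field K] (H : WeilTheoryData.{0, 0, 0} C K) [IsWeilProj H] (X : 𝒱.Obj) (i : ℤ)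
    (a : C.A X), C.Deg i a → (NumTrivial C i a ↔ ∀ w : C.A X, H.tr X (H.cl (a * w)) = 0)

end Pool.Agent.K6.H99.EX
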