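import Pool.Agent.K6.H99.EX.Stm
import Pool.Agent.TH133.Ext

/-!
# Homogeneous components; cycles and correspondences with values in the boundary
-/

set_option autoImplicit false
set_option linter.unusedSectionVars false

open CategoryTheory AlgebraicGeometry

noncomputable section

namespace Pool.Agent.K6.H99.EX

open Pool.Agent.H914 Pool.Agent.H914.VarClass Pool.Agent.H914.VarClass.Obj Pool.Agent.W492.BB
  Pool.Agent.W550.Corr Pool.Agent.TH133 Pool.Agent.K6.H99.FS

section pr

variable {F A : Type*} [Field F] [AddCommGroup A] [Module F A] {gr : ℤ → Submodule F A}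

/-- The component of degree `i`. -/
def pr (hI : DirectSum.IsInternal gr) (i : ℤ) : A →ₗ[F] A :=
  (gr i).subtype ∘ₗ DirectSum.component F ℤ (fun i => gr i) i ∘ₗ
    (LinearEquiv.ofBijective (DirectSum.coeLinearMap gr) hI).symm.toLinearMap

lemma pr_of_mem (hI : DirectSum.IsInternal gr) (i j : ℤ) {a : A} (ha : a ∈ gr j) :
    pr hI i a = if i = j then a else 0 := by
  have h1 : (LinearEquiv.ofBijective (DirectSum.coeLinearMap gr) hI).symm a =
      DirectSum.lof F ℤ (fun i => gr i) j ⟨a, ha⟩ := by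
    rw [LinearEquiv.symm_apply_eq]
    exact (DirectSum.coeLinearMap_lof gr j ⟨a, ha⟩).symm
  change (gr i).subtype (DirectSum.component F ℤ (fun i => gr i) i
    ((LinearEquiv.ofBijective (DirectSum.coeLinearMap gr) hI).symm a)) = _
  rw [h1, DirectSum.component.of]
  split_ifs with h2 h3 h3
  · subst h2; rfl
  · exact absurd h2.symm h3
  · exact absurd h3.symm h2
  · simp

lemma pr_mem (hI : DirectSum.IsInternal gr) (i : ℤ) (a : A) : pr hI i a ∈ gr i := by
  unfold pr
  simp

lemma mem_iSup (hI : DirectSum.IsInternal gr) (a : A) : a ∈ ⨆ i, gr i := by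
  rw [hI.submodule_iSup_eq_top]; trivial

/-- Additive properties of homogeneous elements hold for all elements. -/
lemma induct (hI : DirectSum.IsInternal gr) {p : A → Prop} (h0 : p 0)
    (ha : ∀ a b, p a → p b → p (a + b)) (hh : ∀ i, ∀ a ∈ gr i, p a) (a : A) : p a :=
  Submodule.iSup_induction gr (motive := p) (mem_iSup hI a) hh h0 ha

variable {F' B : Type*} [Field F'] [AddCommGroup B] [Module F' B] {gr' : ℤ → Submodule F' B}

lemma pr_map (hI : DirectSum.IsInternal gr) (hI' : DirectSum.IsInternal gr') (L : A →+ B)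
    (φ : ℤ → ℤ) (hφ : Function.Injective φ) (hL : ∀ i, ∀ a ∈ gr i, L a ∈ gr' (φ i)) (i : ℤ)
    (z : A) : pr hI' (φ i) (L z) = L (pr hI i z) := by
  refine induct hI (p := fun z => pr hI' (φ i) (L z) = L (pr hI i z)) ?_ ?_ ?_ z
  · simp
  · intro a b h1 h2
    rw [map_add, map_add, h1, h2, map_add, map_add]
  · intro j a ha
    rw [pr_of_mem hI i j ha, pr_of_mem hI' (φ i) (φ j) (hL j a ha)]
    by_cases h : i = j
    · rw [if_pos h, if_pos (by rw [h])]
    · rw [if_neg h, if_neg (fun h' => h (hφ h')), map_zero]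

end pr

variable {T₀ T : Theory} {X : T.Var}

section adj

variable [hC : IsChowProj T₀.C] [hH : IsWeilProj T₀.H] {N D : T₀.Var}

include hC hH

omit hC hH in
lemma orth_iff (z w : T₀.CH N) : Orthogonal z w ↔ T₀.H.tr N (T₀.H.cl z * T₀.H.cl w) = 0 := by
  unfold Orthogonal orientation
  change T₀.H.tr N (T₀.H.cl (z * w)) = 0 ↔ _
  rw [map_mul]

lemma orth_comm {z w : T₀.CH N} : Orthogonal z w ↔ Orthogonal w z := by
  unfold Orthogonal
  rw [ch_comm T₀.C z w]

/-- The adjoint of the composition with `β`. -/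
lemma tr_comp (G : T₀.CH (T₀.prod N D)) (β : T₀.CH (T₀.prod D N)) (w : T₀.CH (T₀.prod N N)) :
    T₀.H.tr (N.prod N) (T₀.H.cl (T₀.C.comp G β) * T₀.H.cl w) =
      T₀.H.tr (N.prod D) (T₀.H.cl G * T₀.H.cl (T₀.C.comp w (tp T₀.C β))) := by
  have h1 : T₀.C.act (tens T₀.C (dg T₀.C N) β) G = T₀.C.comp G β := by
    rw [act_tens T₀.C (fun a b => ch_comm T₀.C a b), tp_dg, dg_comp]
  have h2 : T₀.C.act (tp T₀.C (tens T₀.C (dg T₀.C N) β)) w = T₀.C.comp w (tp T₀.C β) := by
    rw [tp_tens, act_tens T₀.C (fun a b => ch_comm T₀.C a b), tp_dg, tp_dg, dg_comp]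
  rw [← h1, ← h2, cl_act T₀.H, cl_act T₀.H, tr_act]

end adj

section main

variable (m : Restriction T₀ T X)

/-- A cycle class whose cohomology class lies in the boundary. -/
theorem elem_boundary (hG₀ : T₀.IsGood) (hG : T.IsGood) (hD : HomEqNum T₀) (hp : IsPerfect T₀)
    (hm : m.Graded) {i : ℤ} {y : T₀.CH m.N} (hy : T₀.Codim i y) (hb : T₀.cls y ∈ m.boundary) :
    ∃ y₁ : T₀.CH m.N, T₀.Codim i y₁ ∧ T₀.HomZero y₁ ∧ m.res y₁ = m.res y := by
  have hC : IsChowProj T₀.C := isChowProj hG₀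
  have hH : IsWeilProj T₀.H := isWeilProj hG₀
  have hC' : IsChowProj T.C := isChowProj hG
  let W : Submodule ℚ (T₀.CH m.N) := Submodule.span ℚ {z | ∃ (D : T₀.Var)
    (β : T₀.CH (T₀.prod D m.N)) (x : T₀.CH D), m.IsBoundary β ∧ z = T₀.act β x}
  obtain ⟨z, hz, hn⟩ : ∃ z ∈ W, NumZero (y - z) := by
    refine hp m.N W y fun w hw => ?_
    have h1 : ∀ (D : T₀.Var) (β : T₀.CH (T₀.prod D m.N)), m.IsBoundary β →
        T₀.H.cl (T₀.C.act (tp T₀.C β) w) = 0 := by
      intro D β hβ
      refine hD D _ fun x => ?_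
      rw [orth_iff, cl_act T₀.H, tr_act', ← cl_act T₀.H, ← orth_iff, orth_comm]
      exact hw _ (Submodule.subset_span ⟨D, β, x, hβ, rfl⟩)
    have h2 : m.boundary ≤ LinearMap.ker (T₀.H.tr m.N ∘ₗ LinearMap.mulRight T₀.K (T₀.H.cl w)) := by
      refine Submodule.span_le.2 ?_
      rintro c ⟨D, β, d, hβ, rfl⟩
      change T₀.H.tr m.N (T₀.H.act (T₀.H.cl β) d * T₀.H.cl w) = 0
      rw [← tr_act, ← cl_act T₀.H, h1 D β hβ, mul_zero, map_zero]
    rw [orth_iff]
    exact h2 hb
  have h0 : T₀.H.cl (y - z) = 0 := hD _ _ hn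
  have hres : m.res z = 0 := by
    have h2 : W ≤ LinearMap.ker m.res := by
      refine Submodule.span_le.2 ?_
      rintro c ⟨D, β, x, hβ, rfl⟩
      exact hβ.res_zero x
    exact h2 hz
  have hI := T₀.C.isInternal m.N
  have hIH := T₀.H.isInternal m.N
  refine ⟨pr hI i (y - z), pr_mem hI i _, ?_, ?_⟩
  · have := pr_map hI hIH (T₀.H.cl (X := m.N)).toAddMonoidHom (fun i => 2 * i)
      (fun a b h => by simpa using h) (fun j a ha => T₀.H.cl_mem ha) i (y - z)
    have e : (T₀.H.cl (X := m.N)).toAddMonoidHom (y - z) = 0 := h0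
    rw [e, map_zero] at this
    exact this.symm
  · have := pr_map hI (T.C.isInternal X) m.res.toAddMonoidHom (fun i => i - m.twist)
      (fun a b h => by simpa using h)
      (fun j a ha => hm _ a (by rwa [sub_add_cancel])) i (y - z)
    have e : m.res.toAddMonoidHom (y - z) = m.res y := by
      change m.res (y - z) = _
      rw [map_sub, hres, sub_zero]
    rw [e, pr_of_mem _ _ _ (hm (i - m.twist) y (by rwa [sub_add_cancel])), if_pos rfl] at this
    exact this.symm

/-- **Correspondences with values in the boundary.** -/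
theorem t_V : S_V := by
  intro T₀ T X m hG₀ hG hD hp hm P hP hPb
  have hC : IsChowProj T₀.C := isChowProj hG₀
  have hH : IsWeilProj T₀.H := isWeilProj hG₀
  have hC' : IsChowProj T.C := isChowProj hG
  let N := m.N
  let W : Submodule ℚ (T₀.CH (T₀.prod N N)) := Submodule.span ℚ {z | ∃ (D : T₀.Var)
    (β : T₀.CH (T₀.prod D N)) (G : T₀.CH (T₀.prod N D)), m.IsBoundary β ∧ z = T₀.C.comp G β}
  obtain ⟨z, hz, hn⟩ : ∃ z ∈ W, NumZero (P - z) := by
    refine hp (T₀.prod N N) W P fun w hw => ?_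
    have h1 : ∀ (D : T₀.Var) (β : T₀.CH (T₀.prod D N)), m.IsBoundary β →
        T₀.H.cl (T₀.C.comp w (tp T₀.C β)) = 0 := by
      intro D β hβ
      refine hD (T₀.prod N D) _ fun G => ?_
      rw [orth_comm, orth_iff]
      have h2 := hw _ (Submodule.subset_span ⟨D, β, G, hβ, rfl⟩)
      rw [orth_iff] at h2
      rw [← h2]
      exact (tr_comp G β w).symm
    have h3 : m.boundary ≤ LinearMap.ker (T₀.H.actL (T₀.H.cl (tp T₀.C w))) := by
      refine Submodule.span_le.2 ?_
      rintro c ⟨D, β, d, hβ, rfl⟩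
      change T₀.H.act (T₀.H.cl (tp T₀.C w)) (T₀.H.act (T₀.H.cl β) d) = 0
      have h4 : T₀.C.comp β (tp T₀.C w) = tp T₀.C (T₀.C.comp w (tp T₀.C β)) := by
        rw [tp_comp T₀.C (fun a b => ch_comm T₀.C a b), tp_tp]
      rw [← actH_comp, h4, cl_tp, h1 D β hβ, tp_zero, TheoryData.act_zero]
    have h5 : T₀.H.cl (T₀.C.comp P (tp T₀.C w)) = 0 := by
      apply hom_zero_of_act T₀.H
      intro a
      rw [actH_comp]
      exact h3 (hPb a)
    rw [orth_iff]
    have h6 := tr_comp (dg T₀.C N) P w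
    rw [dg_comp] at h6
    have h7 : T₀.C.comp w (tp T₀.C P) = tp T₀.C (T₀.C.comp P (tp T₀.C w)) := by
      rw [tp_comp T₀.C (fun a b => ch_comm T₀.C a b), tp_tp]
    rw [h7, cl_tp, h5, tp_zero, mul_zero, map_zero] at h6
    exact h6
  have h0 : T₀.H.cl (P - z) = 0 := hD _ _ hn
  have hres : ∀ x : T₀.CH N, m.res (T₀.C.act z x) = 0 := by
    intro x
    have h2 : W ≤ LinearMap.ker (m.res ∘ₗ (actB T₀.C).flip x) := by
      refine Submodule.span_le.2 ?_
      rintro c ⟨D, β, G, hβ, rfl⟩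
      change m.res (T₀.C.act (T₀.C.comp G β) x) = 0
      rw [T₀.C.act_comp]
      exact hβ.res_zero _
    exact h2 hz
  have hI := T₀.C.isInternal (T₀.prod N N)
  have hIH := T₀.H.isInternal (T₀.prod N N)
  have hINC := T₀.C.isInternal N
  refine ⟨P - pr hI (T₀.dim N) z, ?_, ?_, ?_⟩
  · exact Submodule.sub_mem _ hP (pr_mem hI _ _)
  · have := pr_map hI hIH (T₀.H.cl (X := T₀.prod N N)).toAddMonoidHom (fun i => 2 * i)
      (fun a b h => by simpa using h) (fun j a ha => T₀.H.cl_mem ha) (T₀.dim N) (P - z)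
    have e : (T₀.H.cl (X := T₀.prod N N)).toAddMonoidHom (P - z) = 0 := h0
    rw [e, map_zero, map_sub, pr_of_mem _ _ _ hP, if_pos rfl] at this
    exact this.symm
  · intro x
    have key : ∀ (j : ℤ) (x : T₀.CH N), T₀.Codim j x →
        m.res (T₀.C.act (pr hI (T₀.dim N) z) x) = 0 := by
      intro j x hx
      have := pr_map hI (T.C.isInternal X) (m.res ∘ₗ (actB T₀.C).flip x).toAddMonoidHom
        (fun e => j + (e - N.dim) - m.twist) (fun a b h => by simpa using h)
        (fun e a ha => hm _ _ (by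
          rw [sub_add_cancel]
          exact act_mem' T₀.C (by rwa [add_sub_cancel]) hx)) (T₀.dim N) z
      have e1 : (m.res ∘ₗ (actB T₀.C).flip x).toAddMonoidHom z = 0 := hres x
      rw [e1, map_zero] at this
      exact this.symm
    have key' : m.res (T₀.C.act (pr hI (T₀.dim N) z) x) = 0 := by
      refine induct hINC (p := fun x => m.res (T₀.C.act (pr hI (T₀.dim N) z) x) = 0) ?_ ?_ key x
      · rw [TheoryData.act_map_zero, map_zero]
      · intro a b h1 h2
        rw [act_map_add, map_add, h1, h2, add_zero]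
    change _ = m.res (T₀.C.act (P - pr hI (T₀.dim N) z) x)
    rw [T₀.C.act_sub, map_sub, key', sub_zero]

end main

end Pool.Agent.K6.H99.EX
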